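import Pool.Agent.Run7.h100.UN.Iface2

set_option autoImplicit false

namespace Run7.h662.UN

open Run7.h100.UN
open Pool.Agent.Helper259.AbsHt (absLogHeight)
open Filter

theorem small_log (η : ℝ) (hη : 0 < η) :
    ∃ B : ℕ, ∀ p : ℕ, B < p → Real.log p / ((p : ℝ) - 1) ≤ η := by
  have h1 := Real.tendsto_pow_log_div_mul_add_atTop 1 (-1) 1 one_ne_zero
  have h2 := h1.comp (tendsto_natCast_atTop_atTop (R := ℝ))
  have h3 : ∀ᶠ p : ℕ in atTop, Real.log p / ((p : ℝ) - 1) ≤ η := by
    filter_upwards [h2.eventually (Iio_mem_nhds hη)] with p hp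
    have h4 : Real.log (p : ℝ) ^ 1 / (1 * (p : ℝ) + -1) < η := hp
    rw [pow_one, one_mul, ← sub_eq_add_neg] at h4
    exact h4.le
  obtain ⟨B, hB⟩ := eventually_atTop.1 h3
  exact ⟨B, fun p hp => hB p hp.le⟩

/-- the invariant of the construction -/
def Inv (δ : ℝ) (n : ℕ) (st : Finset ℕ × Finset Qb) : Prop :=
  (∀ p ∈ st.1, p.Prime) ∧ (∑ p ∈ st.1, Real.log p / ((p : ℝ) - 1)) ≤ δ * (1 - (1 / 2) ^ n) ∧
    (∀ α ∈ st.2, absLogHeight ![1, α] ≤ 3 * δ ∧ ∀ p ∈ st.1, TPa p α) ∧
    st.1.card = n ∧ st.2.card = n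

theorem step (hS : S_SPLIT) (hA : S_ALPHAE) (δ : ℝ) (hδ : 0 < δ) (e : ℕ → Qb) (n : ℕ)
    (st : Finset ℕ × Finset Qb) (h : Inv δ n st) :
    ∃ st' : Finset ℕ × Finset Qb, Inv δ (n + 1) st' ∧ st.1 ⊆ st'.1 ∧ st.2 ⊆ st'.2 ∧
      ∀ p ∈ st'.1, p ∈ st.1 ∨ ∀ k ≤ n, TPa p (e k) := by
  classical
  obtain ⟨h1, h2, h3, h4, h5⟩ := h
  obtain ⟨B, hB⟩ := small_log (δ * (1 / 2) ^ (n + 1)) (by positivity)
  obtain ⟨p, hp, hpB, hpT⟩ := hS (st.2 ∪ (Finset.range (n + 1)).image e) (max B (st.1.sup id))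
  have hpB1 : B < p := lt_of_le_of_lt (le_max_left _ _) hpB
  have hps : p ∉ st.1 := by
    intro hmem
    have h6 : p ≤ st.1.sup id := Finset.le_sup (f := id) hmem
    have h7 : st.1.sup id < p := lt_of_le_of_lt (le_max_right _ _) hpB
    omega
  have hprime : ∀ q ∈ insert p st.1, q.Prime := by
    intro q hq
    rcases Finset.mem_insert.1 hq with rfl | hq
    · exact hp
    · exact h1 q hq
  have hsum : (∑ q ∈ insert p st.1, Real.log q / ((q : ℝ) - 1))
      ≤ δ * (1 - (1 / 2) ^ (n + 1)) := by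
    rw [Finset.sum_insert hps]
    have h6 := hB p hpB1
    have h7 : δ * (1 / 2 : ℝ) ^ (n + 1) + δ * (1 - (1 / 2) ^ n)
        = δ * (1 - (1 / 2) ^ (n + 1)) := by
      rw [pow_succ]
      ring
    linarith
  have hsum' : (∑ q ∈ insert p st.1, Real.log q / ((q : ℝ) - 1)) ≤ δ := by
    refine le_trans hsum ?_
    have h8 : (0 : ℝ) < (1 / 2) ^ (n + 1) := by positivity
    nlinarith
  obtain ⟨α, hα1, hα2, hα3⟩ := hA (insert p st.1) hprime δ hδ hsum' st.2
  refine ⟨(insert p st.1, insert α st.2), ⟨hprime, hsum, ?_, ?_, ?_⟩,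
    Finset.subset_insert _ _, Finset.subset_insert _ _, ?_⟩
  · intro β hβ0
    rcases Finset.mem_insert.1 hβ0 with hβ | hβ
    · rw [hβ]
      exact ⟨hα2, hα3⟩
    · refine ⟨(h3 β hβ).1, ?_⟩
      intro q hq0
      rcases Finset.mem_insert.1 hq0 with hq | hq
      · rw [hq]
        exact hpT β (Finset.mem_union_left _ hβ)
      · exact (h3 β hβ).2 q hq
  · change (insert p st.1).card = n + 1
    rw [Finset.card_insert_of_notMem hps, h4]
  · change (insert α st.2).card = n + 1
    rw [Finset.card_insert_of_notMem hα1, h5]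
  · intro q hq
    rcases Finset.mem_insert.1 hq with rfl | hq
    · right
      intro k hk
      exact hpT (e k) (Finset.mem_union_right _
        (Finset.mem_image.2 ⟨k, Finset.mem_range.2 (by omega), rfl⟩))
    · left
      exact hq

theorem countable_Qb : Countable Qb := by
  have h := Algebraic.countable ℚ Qb
  rw [← Set.countable_univ_iff]
  refine h.mono ?_
  intro x _
  exact (AlgebraicClosure.isAlgebraic ℚ).isAlgebraic x

theorem t_RECE (hS : S_SPLIT) (hA : S_ALPHAE) : S_RECE := by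
  classical
  intro ε hε
  have hδ : 0 < ε / 3 := by positivity
  have hcount : Countable Qb := countable_Qb
  obtain ⟨e, he⟩ := exists_surjective_nat Qb
  choose! nx hnx using step hS hA (ε / 3) hδ e
  have h0 : Inv (ε / 3) 0 ((∅, ∅) : Finset ℕ × Finset Qb) := by
    refine ⟨by simp, by simp, by simp, by simp, by simp⟩
  obtain ⟨F, hF0, hFs⟩ : ∃ F : ℕ → Finset ℕ × Finset Qb, F 0 = (∅, ∅) ∧
      ∀ n, F (n + 1) = nx n (F n) :=
    ⟨fun n => Nat.rec (∅, ∅) (fun n st => nx n st) n, rfl, fun n => rfl⟩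
  have hI : ∀ n, Inv (ε / 3) n (F n) := by
    intro n
    induction n with
    | zero =>
      rw [hF0]
      exact h0
    | succ n ih =>
      rw [hFs]
      exact (hnx n (F n) ih).1
  have hm1 : Monotone fun n => (F n).1 := by
    refine monotone_nat_of_le_succ fun n => ?_
    have := (hnx n (F n) (hI n)).2.1
    rw [← hFs] at this
    exact this
  have hm2 : Monotone fun n => (F n).2 := by
    refine monotone_nat_of_le_succ fun n => ?_
    have := (hnx n (F n) (hI n)).2.2.1
    rw [← hFs] at this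
    exact this
  refine ⟨{p | ∃ n, p ∈ (F n).1}, ?_, ?_, ?_, ?_⟩
  · intro hfin
    have hsub : (F (hfin.toFinset.card + 1)).1 ⊆ hfin.toFinset := by
      intro p hp
      rw [Set.Finite.mem_toFinset]
      exact ⟨_, hp⟩
    have hc := Finset.card_le_card hsub
    rw [(hI _).2.2.2.1] at hc
    omega
  · rintro p ⟨n, hp⟩
    exact (hI n).1 p hp
  · intro x
    obtain ⟨k, rfl⟩ := he x
    refine Set.Finite.subset (F k).1.finite_toSet ?_
    rintro p ⟨⟨n, hp⟩, hT⟩
    by_contra hpk
    rw [Finset.mem_coe] at hpk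
    have key : ∀ m, p ∉ (F (k + m)).1 := by
      intro m
      induction m with
      | zero => exact hpk
      | succ m ih =>
        intro hmem
        rw [← add_assoc, hFs] at hmem
        rcases (hnx (k + m) (F (k + m)) (hI _)).2.2.2 p hmem with h | h
        · exact ih h
        · exact hT (h k (by omega))
    rcases le_total n k with hnk | hnk
    · exact hpk (hm1 hnk hp)
    · obtain ⟨m, rfl⟩ := Nat.exists_eq_add_of_le hnk
      exact key m hp
  · intro hfin
    have hsub : (F (hfin.toFinset.card + 1)).2 ⊆ hfin.toFinset := by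
      intro α hα
      rw [Set.Finite.mem_toFinset]
      refine ⟨?_, ?_⟩
      · have := ((hI _).2.2.1 α hα).1
        linarith
      · rintro p ⟨m, hp⟩
        have hα' := hm2 (le_max_left (hfin.toFinset.card + 1) m) hα
        have hp' := hm1 (le_max_right (hfin.toFinset.card + 1) m) hp
        exact ((hI _).2.2.1 α hα').2 p hp'
    have hc := Finset.card_le_card hsub
    rw [(hI _).2.2.2.2] at hc
    omega

end Run7.h662.UN
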