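import Pool.Agent.Run7.h100.UN.Iface

set_option autoImplicit false

namespace Run7.h662.UN

open NumberField
open Run7.h100.UN

theorem int_le (L : IntermediateField ℚ Qb) [NumberField L] (v : FinitePlace L) (y : L)
    (hy : IsIntegral ℤ y) : v y ≤ 1 := by
  have h := FinitePlace.norm_le_one L v.maximalIdeal (⟨y, hy⟩ : 𝓞 L)
  rw [FinitePlace.norm_embedding_eq] at h
  exact h

theorem den (c : Qb) : ∃ d : ℕ, 0 < d ∧ IsIntegral ℤ ((d : Qb) * c) := by
  have halg : IsAlgebraic ℤ c := (IsFractionRing.isAlgebraic_iff ℤ ℚ Qb).mpr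
    ((AlgebraicClosure.isAlgebraic ℚ).isAlgebraic c)
  obtain ⟨y, hy0, hy⟩ := halg.exists_integral_multiple
  refine ⟨y.natAbs, Int.natAbs_pos.mpr hy0, ?_⟩
  rcases Int.natAbs_eq y with h | h
  · have h2 : ((y.natAbs : ℕ) : Qb) = ((y : ℤ) : Qb) := by
      rw [← Int.cast_natCast, ← h]
    rw [h2]
    simpa [zsmul_eq_mul] using hy
  · have h2 : ((y.natAbs : ℕ) : Qb) = -((y : ℤ) : Qb) := by
      have : ((y.natAbs : ℕ) : ℤ) = -y := by omega
      rw [← Int.cast_natCast, this, Int.cast_neg]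
    rw [h2, neg_mul]
    have := hy.neg
    simpa [zsmul_eq_mul] using this

theorem nat_unit (L : IntermediateField ℚ Qb) [NumberField L] (v : FinitePlace L) (n p : ℕ)
    (hp : p.Prime) (hn : 0 < n) (hnp : n < p) (hv : v (p : L) < 1) : v (n : L) = 1 := by
  have hcop : Nat.Coprime n p := (Nat.coprime_of_lt_prime (by omega) hnp hp).symm
  have hb := Nat.gcd_eq_gcd_ab n p
  rw [hcop] at hb
  have hb' : (1 : L) = (n : L) * ((Nat.gcdA n p : ℤ) : L) + (p : L) * ((Nat.gcdB n p : ℤ) : L) := by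
    have := congrArg (fun z : ℤ => (z : L)) hb
    push_cast at this
    exact this
  have hint : ∀ m : ℤ, v ((m : ℤ) : L) ≤ 1 := by
    intro m
    exact int_le L v _ (isIntegral_algebraMap (R := ℤ) (x := m))
  have hle : v (n : L) ≤ 1 := by
    have := hint (n : ℤ)
    rw [Int.cast_natCast] at this
    exact this
  refine le_antisymm hle ?_
  by_contra hcon
  push Not at hcon
  have h1 : v (1 : L) ≤ max (v ((n : L) * ((Nat.gcdA n p : ℤ) : L)))
      (v ((p : L) * ((Nat.gcdB n p : ℤ) : L))) := by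
    have h2 := FinitePlace.add_le v ((n : L) * ((Nat.gcdA n p : ℤ) : L))
      ((p : L) * ((Nat.gcdB n p : ℤ) : L))
    rw [← hb'] at h2
    exact h2
  rw [map_one, map_mul, map_mul] at h1
  have hA := hint (Nat.gcdA n p)
  have hB := hint (Nat.gcdB n p)
  have h3 : v (n : L) * v ((Nat.gcdA n p : ℤ) : L) < 1 :=
    lt_of_le_of_lt (mul_le_of_le_one_right (apply_nonneg v _) hA) hcon
  have h4 : v (p : L) * v ((Nat.gcdB n p : ℤ) : L) < 1 :=
    lt_of_le_of_lt (mul_le_of_le_one_right (apply_nonneg v _) hB) hv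
  exact absurd h1 (not_le.2 (max_lt h3 h4))

theorem t_UNIT : S_UNIT := by
  intro c hc
  obtain ⟨D, hD0, hD⟩ := den c
  obtain ⟨E, hE0, hE⟩ := den c⁻¹
  refine ⟨max D E, fun p hp hlt L _ x hx v hv => ?_⟩
  have hDp : D < p := lt_of_le_of_lt (le_max_left _ _) hlt
  have hEp : E < p := lt_of_le_of_lt (le_max_right _ _) hlt
  have hx0 : x ≠ 0 := by
    intro h
    apply hc
    rw [← hx, h]
    rfl
  have hinj : Function.Injective (algebraMap L Qb) := (algebraMap L Qb).injective
  have h1 : IsIntegral ℤ ((D : L) * x) := by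
    rw [← isIntegral_algebraMap_iff hinj, map_mul, map_natCast]
    change IsIntegral ℤ ((D : Qb) * (x : Qb))
    rw [hx]
    exact hD
  have h2 : IsIntegral ℤ ((E : L) * x⁻¹) := by
    rw [← isIntegral_algebraMap_iff hinj, map_mul, map_natCast, map_inv₀]
    change IsIntegral ℤ ((E : Qb) * (x : Qb)⁻¹)
    rw [hx]
    exact hE
  have h3 := int_le L v _ h1
  have h4 := int_le L v _ h2
  rw [map_mul, nat_unit L v D p hp hD0 hDp hv, one_mul] at h3
  rw [map_mul, nat_unit L v E p hp hE0 hEp hv, one_mul, map_inv₀] at h4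
  have hpos : 0 < v x := FinitePlace.pos_iff.2 hx0
  refine le_antisymm h3 ?_
  by_contra hcon
  push Not at hcon
  exact absurd h4 (not_le.2 ((one_lt_inv₀ hpos).2 hcon))

end Run7.h662.UN
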